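import Mathlib
import Pool.Agent.Y282.WD.Stm

/-!
Recursions along the orbits of the `3x+1` function.
-/

set_option autoImplicit false

open Filter Topology

namespace Pool.Agent.R105.WR

open Pool.Agent.H723R2.LSW

theorem abs_T (m : ℤ) : |(m : ℝ)| ≤ 2 * |((T m : ℤ) : ℝ)| := by
  have h : |m| ≤ 2 * |T m| := by
    unfold T
    split_ifs with h
    · rcases abs_cases m with ⟨h1, h2⟩ | ⟨h1, h2⟩ <;>
        rcases abs_cases (m / 2) with ⟨h3, h4⟩ | ⟨h3, h4⟩ <;> omega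
    · rcases abs_cases m with ⟨h1, h2⟩ | ⟨h1, h2⟩ <;>
        rcases abs_cases ((3 * m + 1) / 2) with ⟨h3, h4⟩ | ⟨h3, h4⟩ <;> omega
  exact_mod_cast h

theorem rec_lin {e : ℤ → ℝ} {E C B : ℝ} (hB : 1 ≤ B) (hC : 0 ≤ C) (hE : ∀ m, e m ≤ E)
    (hs : ∀ m : ℤ, B ≤ |(m : ℝ)| → e m ≤ e (T m) / 2 + C / |(m : ℝ)|) (j : ℕ) :
    ∀ n : ℤ, 2 ^ j * B ≤ |(n : ℝ)| → e n ≤ E / 2 ^ (j + 1) + (j + 1) * C / |(n : ℝ)| := by
  induction j with
  | zero =>
    intro n hn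
    have h1 := hs n (by simpa using hn)
    have h2 := hE (T n)
    simp only [CharP.cast_eq_zero, zero_add, one_mul, pow_one]
    linarith
  | succ j ih =>
    intro n hn
    have h2 : (1 : ℝ) ≤ 2 ^ (j + 1) := one_le_pow₀ (by norm_num)
    have hBn : B ≤ |(n : ℝ)| := by nlinarith
    have hn0 : 0 < |(n : ℝ)| := by linarith
    have h1 := hs n hBn
    have h3 := abs_T n
    have hT0 : 0 < |((T n : ℤ) : ℝ)| := by linarith
    have h4 : 2 ^ j * B ≤ |((T n : ℤ) : ℝ)| := by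
      rw [pow_succ] at hn
      nlinarith
    have h5 := ih (T n) h4
    have h6 : ((j : ℝ) + 1) * C / |((T n : ℤ) : ℝ)| ≤ 2 * (((j : ℝ) + 1) * C / |(n : ℝ)|) := by
      rw [← mul_div_assoc, div_le_div_iff₀ hT0 hn0]
      have : 0 ≤ ((j : ℝ) + 1) * C := by positivity
      nlinarith
    push_cast
    have e1 : E / 2 ^ (j + 1 + 1) = E / 2 ^ (j + 1) / 2 := by rw [pow_succ]; field_simp
    have e2 : ((j : ℝ) + 1 + 1) * C / |(n : ℝ)| = ((j : ℝ) + 1) * C / |(n : ℝ)| + C / |(n : ℝ)| := by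
      field_simp
    rw [e1, e2]
    linarith

theorem rec_sq {e : ℤ → ℝ} {E C B : ℝ} (hB : 1 ≤ B) (hC : 0 ≤ C) (hE : ∀ m, e m ≤ E)
    (hs : ∀ m : ℤ, B ≤ |(m : ℝ)| → e m ≤ e (T m) / 2 + C / |(m : ℝ)| ^ 2) (j : ℕ) :
    ∀ n : ℤ, 2 ^ j * B ≤ |(n : ℝ)| →
      e n ≤ E / 2 ^ (j + 1) + C * (2 ^ (j + 1) - 1) / |(n : ℝ)| ^ 2 := by
  induction j with
  | zero =>
    intro n hn
    have h1 := hs n (by simpa using hn)
    have h2 := hE (T n)
    have e2 : C * (2 ^ (0 + 1) - 1) / |(n : ℝ)| ^ 2 = C / |(n : ℝ)| ^ 2 := by norm_num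
    rw [e2]
    simp only [zero_add, pow_one]
    linarith
  | succ j ih =>
    intro n hn
    have h2 : (1 : ℝ) ≤ 2 ^ (j + 1) := one_le_pow₀ (by norm_num)
    have hBn : B ≤ |(n : ℝ)| := by nlinarith
    have hn0 : 0 < |(n : ℝ)| := by linarith
    have h1 := hs n hBn
    have h3 := abs_T n
    have hT0 : 0 < |((T n : ℤ) : ℝ)| := by linarith
    have h4 : 2 ^ j * B ≤ |((T n : ℤ) : ℝ)| := by
      rw [pow_succ] at hn
      nlinarith
    have h5 := ih (T n) h4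
    have h6 : C * (2 ^ (j + 1) - 1) / |((T n : ℤ) : ℝ)| ^ 2 ≤
        4 * (C * (2 ^ (j + 1) - 1) / |(n : ℝ)| ^ 2) := by
      rw [← mul_div_assoc, div_le_div_iff₀ (by positivity) (by positivity)]
      have h7 : 0 ≤ C * (2 ^ (j + 1) - 1) := mul_nonneg hC (by linarith)
      have h8 : |(n : ℝ)| ^ 2 ≤ 4 * |((T n : ℤ) : ℝ)| ^ 2 := by nlinarith
      nlinarith
    have e1 : E / 2 ^ (j + 1 + 1) = E / 2 ^ (j + 1) / 2 := by rw [pow_succ]; field_simp
    have e2 : C * (2 ^ (j + 1 + 1) - 1) / |(n : ℝ)| ^ 2 =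
        2 * (C * (2 ^ (j + 1) - 1) / |(n : ℝ)| ^ 2) + C / |(n : ℝ)| ^ 2 := by
      field_simp
      ring
    rw [e1, e2]
    linarith

theorem rec_sq' {e : ℤ → ℝ} {E C B : ℝ} (hB : 1 ≤ B) (hC : 0 ≤ C) (hE : ∀ m, e m ≤ E)
    (hs : ∀ m : ℤ, B ≤ |(m : ℝ)| → e m ≤ e (T m) / 2 + C / |(m : ℝ)| ^ 2) :
    ∃ K : ℝ, 0 ≤ K ∧ ∀ n : ℤ, n ≠ 0 → e n ≤ K / |(n : ℝ)| := by
  refine ⟨|E| * B + 2 * C, by positivity, fun n hn => ?_⟩
  have hn0 : 0 < |(n : ℝ)| := by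
    rw [abs_pos]; exact_mod_cast hn
  have hE0 := le_abs_self E
  by_cases hBn : B ≤ |(n : ℝ)|
  · obtain ⟨j, hj1, hj2⟩ := exists_nat_pow_near (x := |(n : ℝ)| / B) (y := 2)
      ((one_le_div (by linarith)).2 hBn) (by norm_num)
    rw [le_div_iff₀ (by linarith)] at hj1
    rw [div_lt_iff₀ (by linarith)] at hj2
    have h := rec_sq hB hC hE hs j n hj1
    have h1 : E / 2 ^ (j + 1) ≤ |E| * B / |(n : ℝ)| := by
      rw [div_le_div_iff₀ (by positivity) hn0]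
      have : 0 ≤ |E| := abs_nonneg _
      nlinarith
    have h2 : C * (2 ^ (j + 1) - 1) / |(n : ℝ)| ^ 2 ≤ 2 * C / |(n : ℝ)| := by
      rw [div_le_div_iff₀ (by positivity) hn0]
      have h3 : (2 : ℝ) ^ (j + 1) - 1 ≤ 2 * |(n : ℝ)| := by
        rw [pow_succ]
        have : (0 : ℝ) < 2 ^ j := by positivity
        nlinarith
      have h4 : C * (2 ^ (j + 1) - 1) ≤ C * (2 * |(n : ℝ)|) := by gcongr
      calc C * (2 ^ (j + 1) - 1) * |(n : ℝ)| ≤ C * (2 * |(n : ℝ)|) * |(n : ℝ)| := by gcongr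
        _ = 2 * C * |(n : ℝ)| ^ 2 := by ring
    rw [add_div]
    linarith
  · push Not at hBn
    have h1 : |E| ≤ (|E| * B + 2 * C) / |(n : ℝ)| := by
      rw [le_div_iff₀ hn0]
      have : 0 ≤ |E| := abs_nonneg _
      nlinarith
    linarith [hE n]

theorem rec_lin' {e : ℤ → ℝ} {E C B : ℝ} (hB : 1 ≤ B) (hC : 0 ≤ C) (hE : ∀ m, e m ≤ E)
    (hs : ∀ m : ℤ, B ≤ |(m : ℝ)| → e m ≤ e (T m) / 2 + C / |(m : ℝ)|) :
    ∃ K : ℝ, 0 ≤ K ∧ ∀ n : ℤ, n ≠ 0 → e n ≤ K * (1 + Real.log |(n : ℝ)|) / |(n : ℝ)| := by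
  refine ⟨|E| * B + 2 * C, by positivity, fun n hn => ?_⟩
  have hn1 : 1 ≤ |(n : ℝ)| := by
    have : 1 ≤ |n| := Int.one_le_abs hn
    exact_mod_cast this
  have hn0 : 0 < |(n : ℝ)| := by linarith
  have hlog : 0 ≤ Real.log |(n : ℝ)| := Real.log_nonneg hn1
  have hE0 := le_abs_self E
  by_cases hBn : B ≤ |(n : ℝ)|
  · obtain ⟨j, hj1, hj2⟩ := exists_nat_pow_near (x := |(n : ℝ)| / B) (y := 2)
      ((one_le_div (by linarith)).2 hBn) (by norm_num)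
    rw [le_div_iff₀ (by linarith)] at hj1
    rw [div_lt_iff₀ (by linarith)] at hj2
    have h := rec_lin hB hC hE hs j n hj1
    have h1 : E / 2 ^ (j + 1) ≤ |E| * B / |(n : ℝ)| := by
      rw [div_le_div_iff₀ (by positivity) hn0]
      have : 0 ≤ |E| := abs_nonneg _
      nlinarith
    have h2 : (j : ℝ) ≤ 2 * Real.log |(n : ℝ)| := by
      have h3 : (2 : ℝ) ^ j ≤ |(n : ℝ)| := by
        have : (0 : ℝ) < 2 ^ j := by positivity
        nlinarith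
      have h4 := Real.log_le_log (by positivity) h3
      rw [Real.log_pow] at h4
      have h5 := Real.log_two_gt_d9
      have : (0 : ℝ) ≤ j := by positivity
      nlinarith
    have h6 : ((j : ℝ) + 1) * C / |(n : ℝ)| ≤ 2 * C * (1 + Real.log |(n : ℝ)|) / |(n : ℝ)| := by
      apply div_le_div_of_nonneg_right _ hn0.le
      nlinarith
    have h7 : |E| * B / |(n : ℝ)| ≤ |E| * B * (1 + Real.log |(n : ℝ)|) / |(n : ℝ)| := by
      apply div_le_div_of_nonneg_right _ hn0.le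
      have : 0 ≤ |E| * B := by positivity
      nlinarith
    have e3 : (|E| * B + 2 * C) * (1 + Real.log |(n : ℝ)|) / |(n : ℝ)| =
      |E| * B * (1 + Real.log |(n : ℝ)|) / |(n : ℝ)| + 2 * C * (1 + Real.log |(n : ℝ)|) / |(n : ℝ)| := by
      ring
    rw [e3]
    linarith
  · push Not at hBn
    have h1 : |E| ≤ (|E| * B + 2 * C) * (1 + Real.log |(n : ℝ)|) / |(n : ℝ)| := by
      rw [le_div_iff₀ hn0]
      have : 0 ≤ |E| := abs_nonneg _
      have h3 : |E| * |(n : ℝ)| ≤ |E| * B + 2 * C := by nlinarith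
      have h4 : 0 ≤ |E| * B + 2 * C := by positivity
      nlinarith
    linarith [hE n]

/-- `|exp x - 1| ≤ |x| exp |x|` -/
theorem abs_exp_sub_one (x : ℝ) : |Real.exp x - 1| ≤ |x| * Real.exp |x| := by
  rcases le_total 0 x with h | h
  · rw [abs_of_nonneg h, abs_of_nonneg (by linarith [Real.one_le_exp h])]
    have h1 := Real.add_one_le_exp (-x)
    have h2 : Real.exp (-x) * Real.exp x = 1 := by rw [← Real.exp_add]; simp
    have h3 := Real.exp_pos x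
    nlinarith
  · rw [abs_of_nonpos h, abs_of_nonpos (by linarith [Real.exp_le_one_iff.2 h])]
    have h1 := Real.add_one_le_exp x
    have h2 : 1 ≤ Real.exp (-x) := Real.one_le_exp (by linarith)
    nlinarith

end Pool.Agent.R105.WR
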