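import Mathlib
import Pool.Agent.Y282.WD.Main
import Pool.Agent.Y888.WD.Near
import Pool.Agent.Y151.WD.Tail
import Pool.Agent.Y811.WD.Back
import Pool.Agent.R105.WR.Rec

/-!
The distance of an integer to the Julia set of `f₀`: lower bounds.
-/

set_option autoImplicit false

open Filter Topology Metric Set

namespace Pool.Agent.R105.WR

open Pool.Agent.H384R2.Fatou Pool.Agent.H723R2.LSW Pool.Agent.Y282.WD

/-- distance of the integer `m` to the Julia set -/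
noncomputable def D (m : ℤ) : ℝ := infDist (m : ℂ) (FatouSet f₀)ᶜ

theorem jul_ne : ((FatouSet f₀)ᶜ).Nonempty := by
  obtain ⟨x, -, -, hx⟩ := jul_one
  exact ⟨(x : ℂ), hx⟩

theorem D_nonneg (m : ℤ) : 0 ≤ D m := infDist_nonneg

theorem D_pos (m : ℤ) : 0 < D m := by
  have hc : IsClosed (FatouSet f₀)ᶜ := (isOpen_fatou f₀).isClosed_compl
  exact (hc.notMem_iff_infDist_pos jul_ne).1 fun h => h (int_mem_fatou m)

theorem ball_D (m : ℤ) : ball (m : ℂ) (D m) ⊆ FatouSet f₀ := ball_infDist_compl_subset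

theorem le_D {m : ℤ} {r : ℝ} (h : ∀ z ∈ ball (m : ℂ) r, z ∈ FatouSet f₀) : r ≤ D m := by
  unfold D
  rw [le_infDist jul_ne]
  intro y hy
  by_contra hcon
  push Not at hcon
  exact hy (h y (by rwa [mem_ball, dist_comm]))

theorem D_le_one (m : ℤ) : D m ≤ 1 := by
  have key : ∀ x : ℝ, (x : ℂ) ∉ FatouSet f₀ → |(m : ℝ) - x| ≤ 1 → D m ≤ 1 := by
    intro x hx h
    refine (infDist_le_dist_of_mem (x := (m : ℂ)) (y := (x : ℂ)) hx).trans ?_
    rw [dist_eq_norm, show ((m : ℂ) - (x : ℂ)) = (((m : ℝ) - x : ℝ) : ℂ) by push_cast; ring,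
      Complex.norm_real]
    exact h
  by_cases hm : m = -2
  · obtain ⟨x, h1, h2, hx⟩ := jul_neg_three
    subst hm
    push_cast at h1 h2
    refine key x hx ?_
    push_cast
    rw [abs_le]
    constructor <;> linarith
  · obtain ⟨x, h1, h2, hx⟩ := jul_all hm
    refine key x hx ?_
    rw [abs_le]
    constructor <;> linarith

/-- `e⁺` of the quotient `ρ / D` -/
noncomputable def lo (m : ℤ) : ℝ := max 0 (Real.log (rho m / D m))

theorem lo_iff {m : ℤ} {ε : ℝ} (hε : 0 ≤ ε) (hr : 0 < rho m) :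
    lo m ≤ ε ↔ Real.exp (-ε) * rho m ≤ D m := by
  unfold lo
  have hD := D_pos m
  rw [max_le_iff, Real.log_le_iff_le_exp (div_pos hr hD), div_le_iff₀ hD]
  constructor
  · rintro ⟨-, h⟩
    calc Real.exp (-ε) * rho m ≤ Real.exp (-ε) * (Real.exp ε * D m) := by gcongr
      _ = D m := by rw [← mul_assoc, ← Real.exp_add]; simp
  · intro h
    refine ⟨hε, ?_⟩
    calc rho m = Real.exp ε * (Real.exp (-ε) * rho m) := by
          rw [← mul_assoc, ← Real.exp_add]; simp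
      _ ≤ Real.exp ε * D m := by gcongr

/-- a sequence of integers has a subsequence which is constant or tends to infinity -/
theorem int_seq (x : ℕ → ℤ) : (∃ (a : ℤ) (χ : ℕ → ℕ), StrictMono χ ∧ ∀ j, x (χ j) = a) ∨
    Tendsto (fun j => |(x j : ℝ)|) atTop atTop := by
  by_cases h : ∃ R : ℝ, ∃ᶠ j in atTop, |(x j : ℝ)| ≤ R
  · left
    obtain ⟨R, hR⟩ := h
    have hfin : {m : ℤ | |(m : ℝ)| ≤ R}.Finite := by
      apply (Set.finite_Icc (-⌈R⌉) ⌈R⌉).subset
      intro m hm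
      rw [Set.mem_setOf_eq, abs_le] at hm
      have h5 := Int.le_ceil R
      rw [Set.mem_Icc]
      constructor
      · have : ((-⌈R⌉ : ℤ) : ℝ) ≤ m := by push_cast; linarith
        exact_mod_cast this
      · have : (m : ℝ) ≤ ((⌈R⌉ : ℤ) : ℝ) := by linarith
        exact_mod_cast this
    have : ∃ a, ∃ᶠ j in atTop, x j = a := by
      by_contra hcon
      push Not at hcon
      have h1 : ∀ᶠ j in atTop, ∀ a ∈ {m : ℤ | |(m : ℝ)| ≤ R}, x j ≠ a :=
        (Filter.eventually_all_finite hfin).2 fun a _ => hcon a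
      apply hR
      filter_upwards [h1] with j hj hle
      exact hj (x j) hle rfl
    obtain ⟨a, ha⟩ := this
    obtain ⟨χ, hχ, h⟩ := Filter.extraction_of_frequently_atTop ha
    exact ⟨a, χ, hχ, h⟩
  · right
    push Not at h
    rw [Filter.tendsto_atTop]
    intro b
    filter_upwards [h b] with j hj
    exact hj.le

/-- normality in a disc where all orbits approach the orbit of `n` -/
theorem near_normal' {n : ℤ} {V : Set ℂ} {q : ℝ} (hq0 : 0 ≤ q) (hq1 : q < 1)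
    (h : ∀ z ∈ V, ∀ j : ℕ, ‖f₀^[j] z - ((T^[j] n : ℤ) : ℂ)‖ ≤ q ^ (2 ^ j)) :
    NormalOn (fun k => f₀^[k]) V := by
  have hq : Tendsto (fun j : ℕ => q ^ (2 ^ j)) atTop (𝓝 0) :=
    (tendsto_pow_atTop_nhds_zero_of_lt_one hq0 hq1).comp
      (tendsto_pow_atTop_atTop_of_one_lt (by norm_num : 1 < 2))
  intro φ
  obtain ⟨ψ, hψ, ⟨c, hc⟩ | hinf⟩ := exists_subseq' φ
  · refine ⟨ψ, hψ, Or.inl ⟨f₀^[c], ?_⟩⟩
    have : (fun j => f₀^[φ (ψ j)]) = fun _ : ℕ => f₀^[c] := by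
      funext j; rw [hc j]
    show TendstoLocallyUniformlyOn (fun j => f₀^[φ (ψ j)]) (f₀^[c]) atTop V
    rw [this]
    exact tlu_const _ _
  · rcases int_seq (fun j => T^[φ (ψ j)] n) with ⟨a, χ, hχ, ha⟩ | hinf2
    · refine ⟨ψ ∘ χ, hψ.comp hχ, Or.inl ⟨fun _ => (a : ℂ), ?_⟩⟩
      apply TendstoUniformlyOn.tendstoLocallyUniformlyOn
      rw [Metric.tendstoUniformlyOn_iff]
      intro ε hε
      have h1 : Tendsto (fun j => φ (ψ (χ j))) atTop atTop := hinf.comp hχ.tendsto_atTop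
      filter_upwards [(hq.comp h1).eventually (gt_mem_nhds hε)] with j hj z hz
      have h2 := h z hz (φ (ψ (χ j)))
      have h3 : T^[φ (ψ (χ j))] n = a := ha j
      rw [h3] at h2
      rw [dist_comm, dist_eq_norm]
      exact lt_of_le_of_lt h2 hj
    · refine ⟨ψ, hψ, Or.inr ?_⟩
      intro K hK _ R
      filter_upwards [hinf2.eventually (eventually_ge_atTop (R + 1))] with j hj z hz
      have h2 := h z (hK hz) (φ (ψ j))
      have h3 : q ^ (2 ^ (φ (ψ j))) ≤ 1 := pow_le_one₀ hq0 hq1.le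
      have h4 : ‖((T^[φ (ψ j)] n : ℤ) : ℂ)‖ = |((T^[φ (ψ j)] n : ℤ) : ℝ)| := Complex.norm_intCast _
      have h5 : ‖((T^[φ (ψ j)] n : ℤ) : ℂ)‖ ≤
          ‖f₀^[φ (ψ j)] z‖ + ‖f₀^[φ (ψ j)] z - ((T^[φ (ψ j)] n : ℤ) : ℂ)‖ := by
        have := norm_sub_norm_le ((T^[φ (ψ j)] n : ℤ) : ℂ) (f₀^[φ (ψ j)] z)
        rw [norm_sub_rev] at this
        linarith
      show R ≤ ‖f₀^[φ (ψ j)] z‖
      linarith

section
variable {A C1 B c : ℝ} (hK : Consts A C1 B c) (hT : S_TAIL)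
include hK hT

/-- base: the whole orbit is large -/
theorem lo_base {n : ℤ} (hn : ∀ j : ℕ, B ≤ bt (T^[j] n)) : lo n ≤ C1 / B ^ 2 := by
  have hδ0 : 0 < C1 / B ^ 2 := delta_pos hK hT le_rfl
  have hr0 := (hT.2 n).1
  rw [lo_iff hδ0.le hr0]
  apply le_D
  intro z hz
  set δ := C1 / B ^ 2 with hδ
  have h1 : Real.exp (-δ) * (1 + δ) ≤ 1 := by
    have := Real.add_one_le_exp δ
    calc Real.exp (-δ) * (1 + δ) ≤ Real.exp (-δ) * Real.exp δ := by gcongr; linarith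
      _ = 1 := by rw [← Real.exp_add]; simp
  rw [mem_ball, dist_eq_norm] at hz
  have h2 : (1 + δ) * ‖z - n‖ < rho n := by
    calc (1 + δ) * ‖z - n‖ < (1 + δ) * (Real.exp (-δ) * rho n) := by gcongr
      _ = (Real.exp (-δ) * (1 + δ)) * rho n := by ring
      _ ≤ 1 * rho n := by gcongr
      _ = rho n := one_mul _
  -- choose `q`
  set q := ((1 + δ) * ‖z - n‖ / rho n + 1) / 2 with hq
  have hx0 : 0 ≤ (1 + δ) * ‖z - n‖ / rho n := by positivity
  have hx1 : (1 + δ) * ‖z - n‖ / rho n < 1 := by rw [div_lt_one hr0]; exact h2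
  have hq0 : 0 ≤ q := by positivity
  have hq1 : q < 1 := by rw [hq]; linarith
  have hzq : (1 + δ) * ‖z - n‖ < q * rho n := by
    rw [← div_lt_iff₀ hr0, hq]; linarith
  have hopen : IsOpen {w : ℂ | (1 + δ) * ‖w - n‖ < q * rho n} :=
    isOpen_lt (by fun_prop) continuous_const
  obtain ⟨r, hr, hsub⟩ := Metric.isOpen_iff.1 hopen z hzq
  refine ⟨r, hr, near_normal' (n := n) hq0 hq1 fun w hw j => ?_⟩
  exact inner_close hK hT le_rfl hn hq0 hq1.le (le_of_lt (hsub hw)) j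

/-- one step for the lower bound -/
theorem lo_step {m : ℤ} (hm : B ≤ bt m) : lo m ≤ lo (T m) / 2 + C1 / bt m ^ 2 := by
  have h0 : 0 < B := B_pos hK hT
  have hb : 0 < bt m := by linarith
  obtain ⟨hr0, hrT, hr1, hr2⟩ := hT.2 m
  have hrT0 := (hT.2 (T m)).1
  have hC1 := hK.h1
  set δ := C1 / bt m ^ 2 with hδ
  have hδ0 : 0 < δ := by positivity
  have hlo : 0 ≤ lo (T m) := le_max_left _ _
  have hε : 0 ≤ lo (T m) / 2 + δ := by positivity
  rw [lo_iff hε hr0]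
  apply le_D
  intro z hz
  rw [mem_ball, dist_eq_norm] at hz
  apply Pool.Agent.Y811.WD.t_BACK
  apply ball_D (T m)
  rw [mem_ball, dist_eq_norm]
  have he1 : Real.exp (-(lo (T m) / 2 + δ)) ≤ 1 := by
    rw [Real.exp_le_one_iff]; linarith
  have h1 : ‖z - m‖ ≤ A / bt m := by
    rw [le_div_iff₀ hb]
    have h2 : ‖z - m‖ ≤ rho m := by nlinarith
    nlinarith [hK.A6]
  have h2 := (hK.rel m z (by linarith [hK.BA]) h1).2
  rw [← hδ] at h2
  have h3 : Real.exp (-lo (T m)) * rho (T m) ≤ D (T m) := (lo_iff hlo hrT0).1 le_rfl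
  refine lt_of_le_of_lt h2 (lt_of_lt_of_le ?_ h3)
  rw [hrT]
  have h4 : ‖z - m‖ ^ 2 < (Real.exp (-(lo (T m) / 2 + δ)) * rho m) ^ 2 := by
    gcongr
  have h5 : (1 + δ) * Real.exp (-(2 * δ)) ≤ 1 := by
    have := Real.add_one_le_exp δ
    calc (1 + δ) * Real.exp (-(2 * δ)) ≤ Real.exp δ * Real.exp (-(2 * δ)) := by gcongr; linarith
      _ = Real.exp (-δ) := by rw [← Real.exp_add]; congr 1; ring
      _ ≤ 1 := by rw [Real.exp_le_one_iff]; linarith
  have h6 : Real.exp (-(lo (T m) / 2 + δ)) ^ 2 = Real.exp (-lo (T m)) * Real.exp (-(2 * δ)) := by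
    rw [← Real.exp_add, ← Real.exp_nat_mul]; congr 1; push_cast; ring
  calc (1 + δ) * (bt m * ‖z - m‖ ^ 2)
      < (1 + δ) * (bt m * (Real.exp (-(lo (T m) / 2 + δ)) * rho m) ^ 2) := by gcongr
    _ = ((1 + δ) * Real.exp (-(2 * δ))) * (Real.exp (-lo (T m)) * (bt m * rho m ^ 2)) := by
        rw [mul_pow, h6]; ring
    _ ≤ 1 * (Real.exp (-lo (T m)) * (bt m * rho m ^ 2)) := by gcongr
    _ = Real.exp (-lo (T m)) * (bt m * rho m ^ 2) := one_mul _

/-- boundedness -/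
theorem lo_bdd : ∃ E : ℝ, ∀ m : ℤ, lo m ≤ E := by
  have h0 : 0 < B := B_pos hK hT
  have hC1 := hK.h1
  have hfin : {m : ℤ | bt m < B}.Finite := by
    apply (Set.finite_Icc (-⌈B + 1⌉) ⌈B + 1⌉).subset
    intro m hm
    rw [Set.mem_setOf_eq] at hm
    unfold bt at hm
    have h2 : (1 : ℝ) ≤ Real.pi ^ 2 / 4 := by nlinarith [Real.pi_gt_three]
    have h3 : (0 : ℝ) ≤ |(m : ℝ) + 1 / 2| := abs_nonneg _
    have h4 : |(m : ℝ) + 1 / 2| < B := by nlinarith
    rw [abs_lt] at h4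
    have h5 := Int.le_ceil (B + 1)
    rw [Set.mem_Icc]
    constructor
    · have : ((-⌈B + 1⌉ : ℤ) : ℝ) ≤ m := by push_cast; linarith
      exact_mod_cast this
    · have : (m : ℝ) ≤ ((⌈B + 1⌉ : ℤ) : ℝ) := by linarith
      exact_mod_cast this
  obtain ⟨E0, hE0⟩ := (hfin.image lo).bddAbove
  have hsmall : ∀ m : ℤ, bt m < B → lo m ≤ E0 := fun m hm => hE0 ⟨m, hm, rfl⟩
  refine ⟨max E0 (2 * (C1 / B ^ 2)), ?_⟩
  have key : ∀ k : ℕ, ∀ m : ℤ, bt (T^[k] m) < B → lo m ≤ max E0 (2 * (C1 / B ^ 2)) := by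
    intro k
    induction k with
    | zero => intro m hm; exact (hsmall m hm).trans (le_max_left _ _)
    | succ k ih =>
      intro m hm
      by_cases hb : bt m < B
      · exact (hsmall m hb).trans (le_max_left _ _)
      · push Not at hb
        have h1 := lo_step hK hT hb
        have h2 := ih (T m) (by rwa [Function.iterate_succ_apply] at hm)
        have h3 : C1 / bt m ^ 2 ≤ C1 / B ^ 2 := by gcongr
        have h4 := le_max_right E0 (2 * (C1 / B ^ 2))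
        linarith
  intro m
  by_cases h : ∃ k : ℕ, bt (T^[k] m) < B
  · obtain ⟨k, hk⟩ := h
    exact key k m hk
  · push Not at h
    have h1 := lo_base hK hT h
    have h2 : 0 ≤ C1 / B ^ 2 := by positivity
    have h4 := le_max_right E0 (2 * (C1 / B ^ 2))
    linarith

end

/-- `1 / bt m ≤ 1 / |m|` -/
theorem abs_le_bt {m : ℤ} (hm : m ≠ 0) : |(m : ℝ)| ≤ bt m := by
  unfold bt
  have h1 : (1 : ℝ) ≤ |(m : ℝ)| := by
    have : 1 ≤ |m| := Int.one_le_abs hm
    exact_mod_cast this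
  have h2 : |(m : ℝ)| - 1 / 2 ≤ |(m : ℝ) + 1 / 2| := by
    have := abs_sub_abs_le_abs_sub ((m : ℝ)) (-(1 / 2))
    rw [sub_neg_eq_add, abs_neg, abs_of_pos (by norm_num : (0 : ℝ) < 1 / 2)] at this
    linarith
  have h3 : (9 : ℝ) / 4 ≤ Real.pi ^ 2 / 4 := by nlinarith [Real.pi_gt_three]
  nlinarith

/-- the lower bound -/
theorem lower : ∃ K : ℝ, 0 ≤ K ∧ ∀ n : ℤ, n ≠ 0 → Real.log (rho n / D n) ≤ K / |(n : ℝ)| := by
  obtain ⟨A, C1, B, c, hK⟩ := exists_consts Pool.Agent.Y888.WD.t_NEAR Pool.Agent.Y888.WD.t_LOW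
  have hT := Pool.Agent.Y151.WD.t_TAIL
  have h0 : 0 < B := B_pos hK hT
  have hC1 := hK.h1
  obtain ⟨E, hE⟩ := lo_bdd hK hT
  obtain ⟨K, hK0, h⟩ := rec_sq' (e := lo) (E := E) (C := C1) (B := max 1 B) (le_max_left _ _)
    (by linarith) hE (by
      intro m hm
      have hm1 : 1 ≤ |(m : ℝ)| := (le_max_left _ _).trans hm
      have hm0 : m ≠ 0 := by
        rintro rfl
        simp at hm1
        linarith
      have h1 := abs_le_bt hm0
      have h2 := lo_step hK hT (m := m) (((le_max_right _ _).trans hm).trans h1)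
      have h3 : C1 / bt m ^ 2 ≤ C1 / |(m : ℝ)| ^ 2 := by gcongr
      linarith)
  exact ⟨K, hK0, fun n hn => (le_max_right _ _).trans (h n hn)⟩

end Pool.Agent.R105.WR
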