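import Mathlib
import Pool.Agent.R105.WR.Low

/-!
The distance of an integer to the Julia set of `f₀`: upper bounds.
-/

set_option autoImplicit false

open Filter Topology Metric Set

namespace Pool.Agent.R105.WR

open Pool.Agent.H384R2.Fatou Pool.Agent.H723R2.LSW Pool.Agent.Y282.WD

/-- the image of a disc contains a disc -/
theorem image_disc {m : ℤ} {s L : ℝ} (hs : 0 < s)
    (hL : ∀ z : ℂ, ‖z - m‖ = s → L ≤ ‖f₀ z - (T m : ℂ)‖) :
    ball (T m : ℂ) L ⊆ f₀ '' ball (m : ℂ) s := by
  rcases le_or_gt L 0 with h0 | h0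
  · rw [ball_eq_empty.2 h0]; exact empty_subset _
  have h1 : IsOpen (f₀ '' ball (m : ℂ) s) := f₀_open _ isOpen_ball
  have h2 : IsOpen (f₀ '' closedBall (m : ℂ) s)ᶜ :=
    ((isCompact_closedBall (m : ℂ) s).image f₀_differentiable.continuous).isClosed.isOpen_compl
  refine IsPreconnected.subset_left_of_subset_union h1 h2 ?_ ?_ ?_
    (convex_ball (T m : ℂ) L).isPreconnected
  · rw [Set.disjoint_compl_right_iff_subset]
    exact image_mono ball_subset_closedBall
  · intro w hw
    by_cases hin : w ∈ f₀ '' closedBall (m : ℂ) s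
    · left
      obtain ⟨z, hz, rfl⟩ := hin
      refine ⟨z, ?_, rfl⟩
      rw [mem_closedBall, dist_eq_norm] at hz
      rw [mem_ball, dist_eq_norm] at hw ⊢
      rcases hz.lt_or_eq with h | h
      · exact h
      · exact absurd (hL z h) (not_le.2 hw)
    · exact Or.inr hin
  · exact ⟨(T m : ℂ), mem_ball_self h0, (m : ℂ), mem_ball_self hs, f₀_int m⟩

theorem up_step {m : ℤ} {s L : ℝ} (hs : 0 < s) (hsD : s ≤ D m)
    (hL : ∀ z : ℂ, ‖z - m‖ = s → L ≤ ‖f₀ z - (T m : ℂ)‖) : L ≤ D (T m) := by
  apply le_D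
  intro w hw
  obtain ⟨z, hz, rfl⟩ := image_disc hs hL hw
  exact fatou_forward f₀_open (ball_D m (ball_subset_ball hsD hz))

/-- crude upper bound -/
theorem crude : ∃ A : ℝ, 6 ≤ A ∧ ∀ m : ℤ, D m ≤ A / bt m := by
  obtain ⟨c, hc, N, hlow⟩ := Pool.Agent.Y888.WD.t_LOW
  have hT := Pool.Agent.Y151.WD.t_TAIL
  set B := max (max N 1) (4 / c + 1) with hB
  have hB1 : 1 ≤ B := (le_max_right _ _).trans (le_max_left _ _)
  have hBN : N ≤ B := (le_max_left _ _).trans (le_max_left _ _)
  have hBc : 4 / c + 1 ≤ B := le_max_right _ _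
  have hhalf : ∀ m : ℤ, B ≤ bt m → D m ≤ 1 / 2 := by
    intro m hm
    by_contra hcon
    push Not at hcon
    have h1 := up_step (m := m) (s := 1 / 2) (L := c * bt m * (1 / 2) ^ 2) (by norm_num) hcon.le
      (fun z hz => by
        have := (hlow m (hBN.trans hm) z hz.le).1
        rwa [hz] at this)
    have h2 := D_le_one (T m)
    have h3 : 4 / c < bt m := by linarith
    rw [div_lt_iff₀ hc] at h3
    nlinarith
  have hstep : ∀ m : ℤ, B ≤ bt m → c * bt m * D m ^ 2 ≤ D (T m) := by
    intro m hm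
    refine up_step (m := m) (s := D m) (D_pos m) le_rfl (fun z hz => ?_)
    have := (hlow m (hBN.trans hm) z (by rw [hz]; exact hhalf m hm)).1
    rwa [hz] at this
  have hbp : ∀ m : ℤ, 0 < bt m := fun m => bt_pos m hT
  have hy : ∀ m : ℤ, B ≤ bt m → (c / 3 * bt m * D m) ^ 2 ≤ c / 3 * bt (T m) * D (T m) := by
    intro m hm
    have h1 := hstep m hm
    have h2 := (hT.1 m).2.2
    have h3 := hbp m
    have h4 := hbp (T m)
    calc (c / 3 * bt m * D m) ^ 2 = c / 3 * (bt m / 3) * (c * bt m * D m ^ 2) := by ring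
      _ ≤ c / 3 * bt (T m) * (c * bt m * D m ^ 2) := by
          gcongr
          linarith
      _ ≤ c / 3 * bt (T m) * D (T m) := by gcongr
  set Y := max 1 (c / 3 * B) with hY
  have hY1 : 1 ≤ Y := le_max_left _ _
  have hsm : ∀ m : ℤ, bt m < B → c / 3 * bt m * D m ≤ Y := by
    intro m hm
    refine le_trans ?_ (le_max_right _ _)
    have h1 := D_le_one m
    have h2 := D_nonneg m
    have h3 := hbp m
    calc c / 3 * bt m * D m ≤ c / 3 * B * 1 := by gcongr
      _ = c / 3 * B := mul_one _
  have key : ∀ k : ℕ, ∀ m : ℤ, bt (T^[k] m) < B → c / 3 * bt m * D m ≤ Y := by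
    intro k
    induction k with
    | zero => intro m hm; exact hsm m hm
    | succ k ih =>
      intro m hm
      by_cases hb : bt m < B
      · exact hsm m hb
      · push Not at hb
        have h1 := hy m hb
        have h2 := ih (T m) (by rwa [Function.iterate_succ_apply] at hm)
        have h3 : (c / 3 * bt m * D m) ^ 2 ≤ Y ^ 2 := by nlinarith
        exact abs_le_of_sq_le_sq' h3 (by linarith) |>.2
  have hall : ∀ m : ℤ, c / 3 * bt m * D m ≤ Y := by
    intro m
    by_cases h : ∃ k : ℕ, bt (T^[k] m) < B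
    · obtain ⟨k, hk⟩ := h
      exact key k m hk
    · push Not at h
      refine le_trans ?_ hY1
      have h1 := no_growth (t := fun i => c / 3 * bt (T^[i] m) * D (T^[i] m))
        (D := c / 3 * bt m) (fun j => by
          have := hy (T^[j] m) (h j)
          rw [← Function.iterate_succ_apply' T j m] at this
          exact this) (fun j => by
          have h2 : bt (T^[j] m) ≤ bt m * 2 ^ j := by
            induction j with
            | zero => simp
            | succ j ih =>
              rw [Function.iterate_succ_apply', pow_succ]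
              have := (hT.1 (T^[j] m)).2.1
              linarith
          have h3 := D_le_one (T^[j] m)
          have h4 := D_nonneg (T^[j] m)
          have h5 := hbp (T^[j] m)
          have h6 := hbp m
          calc c / 3 * bt (T^[j] m) * D (T^[j] m) ≤ c / 3 * (bt m * 2 ^ j) * 1 := by gcongr
            _ = c / 3 * bt m * 2 ^ j := by ring) 0
      simpa using h1
  refine ⟨max 6 (3 / c * Y), le_max_left _ _, fun m => ?_⟩
  rw [le_div_iff₀ (hbp m)]
  refine le_trans ?_ (le_max_right _ _)
  have h1 := hall m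
  rw [div_mul_eq_mul_div, le_div_iff₀ hc]
  nlinarith

/-- the upper bound -/
theorem upper : ∃ K : ℝ, 0 ≤ K ∧ ∀ n : ℤ, n ≠ 0 → Real.log (D n / rho n) ≤ K / |(n : ℝ)| := by
  obtain ⟨A, hA6, hA⟩ := crude
  have hT := Pool.Agent.Y151.WD.t_TAIL
  obtain ⟨C1, hC1, hrel⟩ := rel Pool.Agent.Y888.WD.t_NEAR (A := A) (by linarith)
  have hbp : ∀ m : ℤ, 0 < bt m := fun m => bt_pos m hT
  -- bounded
  have hE : ∀ m : ℤ, Real.log (D m / rho m) ≤ Real.log (2 * A) := by
    intro m
    obtain ⟨hr0, -, hr1, -⟩ := hT.2 m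
    apply Real.log_le_log (div_pos (D_pos m) hr0)
    rw [div_le_iff₀ hr0]
    refine (hA m).trans ?_
    rw [div_le_iff₀ (hbp m)]
    nlinarith
  obtain ⟨K, hK0, h⟩ := rec_sq' (e := fun m => Real.log (D m / rho m)) (E := Real.log (2 * A))
    (C := C1) (B := max A (2 * C1)) ((le_trans (by linarith) (le_max_left _ _))) (by linarith) hE (by
      intro m hm
      have hmA : A ≤ |(m : ℝ)| := (le_max_left _ _).trans hm
      have hmC : 2 * C1 ≤ |(m : ℝ)| := (le_max_right _ _).trans hm
      have hm0 : m ≠ 0 := by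
        rintro rfl
        simp at hmA
        linarith
      have hmb := abs_le_bt hm0
      obtain ⟨hr0, hrT, -, -⟩ := hT.2 m
      have hb := hbp m
      set δ := C1 / bt m ^ 2 with hδ
      have hδ0 : 0 < δ := by positivity
      have hδ1 : δ ≤ 1 / 2 := by
        rw [hδ, div_le_iff₀ (by positivity)]
        nlinarith
      have h1 := up_step (m := m) (s := D m) (L := (1 - δ) * (bt m * D m ^ 2)) (D_pos m) le_rfl
        (fun z hz => by
          have := (hrel m z (hmA.trans hmb) (by rw [hz]; exact hA m)).1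
          rwa [hz] at this)
      have hD := D_pos m
      have h2 : (1 - δ) * (D m / rho m) ^ 2 ≤ D (T m) / rho (T m) := by
        rw [hrT, le_div_iff₀ (by positivity)]
        calc (1 - δ) * (D m / rho m) ^ 2 * (bt m * rho m ^ 2) = (1 - δ) * (bt m * D m ^ 2) := by
              field_simp
          _ ≤ D (T m) := h1
      have h3 := Real.log_le_log (by
        have : 0 < 1 - δ := by linarith
        positivity) h2
      rw [Real.log_mul (by linarith) (by positivity), Real.log_pow] at h3
      have h4 : -(2 * δ) ≤ Real.log (1 - δ) := by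
        have h5 := Real.one_sub_inv_le_log_of_pos (show 0 < 1 - δ by linarith)
        refine le_trans ?_ h5
        have h6 : (1 - δ)⁻¹ ≤ 1 + 2 * δ := by
          rw [inv_le_iff_one_le_mul₀ (by linarith)]
          nlinarith
        linarith
      have h7 : δ ≤ C1 / |(m : ℝ)| ^ 2 := by
        rw [hδ]
        have : 0 < |(m : ℝ)| := by linarith
        gcongr
      push_cast at h3
      show Real.log (D m / rho m) ≤ Real.log (D (T m) / rho (T m)) / 2 + C1 / |(m : ℝ)| ^ 2
      linarith)
  exact ⟨K, hK0, h⟩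

theorem main_rho : ∃ K : ℝ, 0 ≤ K ∧ ∀ n : ℤ, n ≠ 0 → |Real.log (D n / rho n)| ≤ K / |(n : ℝ)| := by
  obtain ⟨K1, h1, hK1⟩ := lower
  obtain ⟨K2, h2, hK2⟩ := upper
  refine ⟨max K1 K2, le_max_of_le_left h1, fun n hn => ?_⟩
  have hn0 : 0 < |(n : ℝ)| := by
    rw [abs_pos]; exact_mod_cast hn
  rw [abs_le]
  constructor
  · have e : Real.log (D n / rho n) = -Real.log (rho n / D n) := by
      rw [← Real.log_inv, inv_div]
    rw [e, neg_le_neg_iff]
    refine (hK1 n hn).trans ?_
    gcongr
    exact le_max_left _ _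
  · refine (hK2 n hn).trans ?_
    gcongr
    exact le_max_right _ _

end Pool.Agent.R105.WR
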