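import Mathlib
import Pool.Agent.R105.WR.Up

/-!
The limiting radius in terms of the binary expansion of the parity sequence.
-/

set_option autoImplicit false

open Filter Topology Metric Set

namespace Pool.Agent.R105.WR

open Pool.Agent.H384R2.Fatou Pool.Agent.H723R2.LSW Pool.Agent.Y282.WD

/-- parity -/
noncomputable def par (m : ℤ) : ℝ := if m % 2 = 0 then 0 else 1

/-- the number whose binary digits are the parities of the trajectory -/
noncomputable def V (m : ℤ) : ℝ := ∑' k : ℕ, par (T^[k] m) / 2 ^ (k + 1)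

theorem par_nonneg (m : ℤ) : 0 ≤ par m := by
  unfold par; split_ifs <;> norm_num

theorem par_le (m : ℤ) : par m ≤ 1 := by
  unfold par; split_ifs <;> norm_num

theorem hs_half : HasSum (fun k : ℕ => (1 : ℝ) / 2 ^ (k + 1)) 1 := by
  have h := hasSum_geometric_two' (1 : ℝ)
  refine h.congr_fun ?_ |> fun h' => h'
  intro k
  rw [pow_succ]
  field_simp

theorem V_summable (m : ℤ) : Summable (fun k : ℕ => par (T^[k] m) / 2 ^ (k + 1)) := by
  refine Summable.of_nonneg_of_le (fun k => div_nonneg (par_nonneg _) (by positivity)) (fun k => ?_)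
    hs_half.summable
  have := par_le (T^[k] m)
  gcongr

theorem V_nonneg (m : ℤ) : 0 ≤ V m :=
  tsum_nonneg fun k => div_nonneg (par_nonneg _) (by positivity)

theorem V_le_one (m : ℤ) : V m ≤ 1 := by
  rw [← hs_half.tsum_eq]
  refine (V_summable m).tsum_le_tsum (fun k => ?_) hs_half.summable
  have := par_le (T^[k] m)
  gcongr

theorem V_step (m : ℤ) : V m = par m / 2 + V (T m) / 2 := by
  unfold V
  rw [(V_summable m).tsum_eq_zero_add, ← tsum_div_const]
  simp only [Function.iterate_zero, id_eq, zero_add, pow_one, Function.iterate_succ_apply]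
  congr 1
  apply tsum_congr
  intro k
  rw [pow_succ _ (k + 1)]
  field_simp

/-- `|log (a / b)| ≤ |a - b| / c` if `c ≤ a, b` -/
theorem abs_log_div {a b c : ℝ} (hc : 0 < c) (ha : c ≤ a) (hb : c ≤ b) :
    |Real.log (a / b)| ≤ |a - b| / c := by
  have ha0 : 0 < a := by linarith
  have hb0 : 0 < b := by linarith
  rw [abs_le]
  constructor
  · have h1 := Real.log_le_sub_one_of_pos (show 0 < b / a by positivity)
    have h2 : Real.log (b / a) = -Real.log (a / b) := by
      rw [← Real.log_inv, inv_div]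
    have h3 : b / a - 1 ≤ |a - b| / c := by
      rw [div_sub_one ha0.ne', div_le_div_iff₀ ha0 hc]
      have := abs_nonneg (a - b)
      have h4 := neg_abs_le (a - b)
      nlinarith
    linarith
  · have h1 := Real.log_le_sub_one_of_pos (show 0 < a / b by positivity)
    have h3 : a / b - 1 ≤ |a - b| / c := by
      rw [div_sub_one hb0.ne', div_le_div_iff₀ hb0 hc]
      have := abs_nonneg (a - b)
      have h4 := le_abs_self (a - b)
      nlinarith
    linarith

/-- the logarithm of the quotient of `ρ` and its explicit form -/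
noncomputable def g (m : ℤ) : ℝ := Real.log (bt m * rho m) - Real.log 2 + V m * Real.log 3

theorem g_bdd (m : ℤ) : |g m| ≤ 3 * Real.log 3 := by
  have hT := Pool.Agent.Y151.WD.t_TAIL
  obtain ⟨hr0, -, hr1, hr2⟩ := hT.2 m
  have hb := bt_pos m hT
  have h2 : 0 < Real.log 2 := Real.log_pos (by norm_num)
  have h3 : Real.log 2 ≤ Real.log 3 := Real.log_le_log (by norm_num) (by norm_num)
  have h4 : -Real.log 2 ≤ Real.log (bt m * rho m) := by
    rw [← Real.log_inv]
    apply Real.log_le_log (by norm_num)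
    nlinarith
  have h5 : Real.log (bt m * rho m) ≤ Real.log 3 := Real.log_le_log (by positivity) hr2
  have h6 := V_nonneg m
  have h7 := V_le_one m
  unfold g
  rw [abs_le]
  constructor <;> nlinarith

theorem bt_ratio (m : ℤ) : bt (T m) / bt m = |((T m : ℤ) : ℝ) + 1 / 2| / |(m : ℝ) + 1 / 2| := by
  unfold bt
  have : Real.pi ^ 2 / 4 ≠ 0 := by positivity
  rw [mul_div_mul_left _ _ this]

theorem half_int {m : ℤ} : 0 < |(m : ℝ) + 1 / 2| := by
  rw [Pool.Agent.Y151.WD.abs_int]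
  have : 1 ≤ |2 * m + 1| := Int.one_le_abs (by omega)
  have : (1 : ℝ) ≤ ((|2 * m + 1| : ℤ) : ℝ) := by exact_mod_cast this
  linarith

theorem g_step (m : ℤ) : g (T m) = 2 * g m + (Real.log (bt (T m) / bt m) + Real.log 2 -
    par m * Real.log 3) := by
  have hT := Pool.Agent.Y151.WD.t_TAIL
  obtain ⟨hr0, hrT, -, -⟩ := hT.2 m
  have hrT0 := (hT.2 (T m)).1
  have hb := bt_pos m hT
  have hbT := bt_pos (T m) hT
  unfold g
  rw [hrT, Real.log_mul hbT.ne' (by positivity), Real.log_mul hb.ne' (by positivity), Real.log_pow,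
    Real.log_mul hb.ne' hr0.ne', Real.log_div hbT.ne' hb.ne', V_step m]
  push_cast
  ring

theorem err_le {m : ℤ} (hm : 2 ≤ |(m : ℝ)|) :
    |Real.log (bt (T m) / bt m) + Real.log 2 - par m * Real.log 3| ≤ 1 / |(m : ℝ)| := by
  have hm0 : 0 < |(m : ℝ)| := by linarith
  rw [bt_ratio]
  have hh := half_int (m := m)
  have hhT := half_int (m := T m)
  have h1 : |(m : ℝ)| - 1 / 2 ≤ |(m : ℝ) + 1 / 2| := by
    have := abs_sub_abs_le_abs_sub ((m : ℝ)) (-(1 / 2))
    rw [sub_neg_eq_add, abs_neg, abs_of_pos (by norm_num : (0 : ℝ) < 1 / 2)] at this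
    linarith
  have h2 : |(m : ℝ)| - 1 ≤ |(m : ℝ) + 1| := by
    have := abs_sub_abs_le_abs_sub ((m : ℝ)) (-1)
    rw [sub_neg_eq_add, abs_neg, abs_one] at this
    linarith
  by_cases hp : m % 2 = 0
  · have e1 : ((T m : ℤ) : ℝ) = (m : ℝ) / 2 := by
      have : T m = m / 2 := by unfold T; rw [if_pos hp]
      rw [this]
      have h3 : m = 2 * (m / 2) := by omega
      have h4 : (m : ℝ) = 2 * ((m / 2 : ℤ) : ℝ) := by exact_mod_cast h3
      linarith
    have e2 : par m = 0 := by unfold par; rw [if_pos hp]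
    rw [e1, e2, zero_mul, sub_zero]
    have e3 : |(m : ℝ) / 2 + 1 / 2| = |(m : ℝ) + 1| / 2 := by
      rw [← add_div, abs_div, abs_of_pos (by norm_num : (0 : ℝ) < 2)]
    rw [e3]
    have hm1 : 0 < |(m : ℝ) + 1| := by linarith
    have e4 : Real.log (|(m : ℝ) + 1| / 2 / |(m : ℝ) + 1 / 2|) + Real.log 2 =
        Real.log (|(m : ℝ) + 1| / |(m : ℝ) + 1 / 2|) := by
      rw [← Real.log_mul (by positivity) (by norm_num)]
      congr 1
      field_simp
    rw [e4]
    have h5 := abs_log_div (c := |(m : ℝ)| / 2) (by positivity) (a := |(m : ℝ) + 1|)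
      (b := |(m : ℝ) + 1 / 2|) (by linarith) (by linarith)
    refine h5.trans ?_
    have h6 : |(|(m : ℝ) + 1| - |(m : ℝ) + 1 / 2|)| ≤ 1 / 2 := by
      refine (abs_abs_sub_abs_le_abs_sub _ _).trans ?_
      rw [show (m : ℝ) + 1 - (m + 1 / 2) = 1 / 2 by ring, abs_of_pos (by norm_num)]
    rw [div_le_div_iff₀ (by positivity) hm0]
    nlinarith
  · have e1 : ((T m : ℤ) : ℝ) = (3 * (m : ℝ) + 1) / 2 := by
      have : T m = (3 * m + 1) / 2 := by unfold T; rw [if_neg hp]
      rw [this]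
      have h3 : 3 * m + 1 = 2 * ((3 * m + 1) / 2) := by omega
      have h4 : 3 * (m : ℝ) + 1 = 2 * (((3 * m + 1) / 2 : ℤ) : ℝ) := by exact_mod_cast h3
      linarith
    have e2 : par m = 1 := by unfold par; rw [if_neg hp]
    rw [e1, e2, one_mul]
    have e3 : |(3 * (m : ℝ) + 1) / 2 + 1 / 2| = 3 * |(m : ℝ) + 2 / 3| / 2 := by
      rw [show (3 * (m : ℝ) + 1) / 2 + 1 / 2 = 3 * (m + 2 / 3) / 2 by ring, abs_div, abs_mul,
        abs_of_pos (by norm_num : (0 : ℝ) < 2), abs_of_pos (by norm_num : (0 : ℝ) < 3)]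
    rw [e3]
    have h3 : |(m : ℝ)| - 2 / 3 ≤ |(m : ℝ) + 2 / 3| := by
      have := abs_sub_abs_le_abs_sub ((m : ℝ)) (-(2 / 3))
      rw [sub_neg_eq_add, abs_neg, abs_of_pos (by norm_num : (0 : ℝ) < 2 / 3)] at this
      linarith
    have hm1 : 0 < |(m : ℝ) + 2 / 3| := by linarith
    have e4 : Real.log (3 * |(m : ℝ) + 2 / 3| / 2 / |(m : ℝ) + 1 / 2|) + Real.log 2 - Real.log 3 =
        Real.log (|(m : ℝ) + 2 / 3| / |(m : ℝ) + 1 / 2|) := by
      rw [← Real.log_mul (by positivity) (by norm_num), ← Real.log_div (by positivity) (by norm_num)]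
      congr 1
      field_simp
    rw [e4]
    have h5 := abs_log_div (c := |(m : ℝ)| / 2) (by positivity) (a := |(m : ℝ) + 2 / 3|)
      (b := |(m : ℝ) + 1 / 2|) (by linarith) (by linarith)
    refine h5.trans ?_
    have h6 : |(|(m : ℝ) + 2 / 3| - |(m : ℝ) + 1 / 2|)| ≤ 1 / 2 := by
      refine (abs_abs_sub_abs_le_abs_sub _ _).trans ?_
      rw [show (m : ℝ) + 2 / 3 - (m + 1 / 2) = 1 / 6 by ring, abs_of_pos (by norm_num)]
      norm_num
    rw [div_le_div_iff₀ (by positivity) hm0]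
    nlinarith

theorem main_g : ∃ K : ℝ, 0 ≤ K ∧ ∀ n : ℤ, n ≠ 0 →
    |g n| ≤ K * (1 + Real.log |(n : ℝ)|) / |(n : ℝ)| := by
  refine rec_lin' (e := fun m => |g m|) (E := 3 * Real.log 3) (C := 1) (B := 2) (by norm_num)
    (by norm_num) g_bdd fun m hm => ?_
  have h1 := g_step m
  have h2 := err_le hm
  have hm0 : 0 < |(m : ℝ)| := by linarith
  set r := Real.log (bt (T m) / bt m) + Real.log 2 - par m * Real.log 3 with hr
  have h3 : g m = (g (T m) - r) / 2 := by linarith
  show |g m| ≤ |g (T m)| / 2 + 1 / |(m : ℝ)|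
  rw [h3, abs_div, abs_of_pos (by norm_num : (0 : ℝ) < 2)]
  have h4 := abs_sub (g (T m)) r
  have h5 : 0 < 1 / |(m : ℝ)| := by positivity
  linarith

/-- the explicit form -/
theorem main_log : ∃ K : ℝ, 0 ≤ K ∧ ∀ n : ℤ, n ≠ 0 →
    |Real.log (Real.pi ^ 2 / 8 * 3 ^ V n * |(n : ℝ)| * D n)| ≤
      K * (1 + Real.log |(n : ℝ)|) / |(n : ℝ)| := by
  obtain ⟨K1, h1, hK1⟩ := main_rho
  obtain ⟨K2, h2, hK2⟩ := main_g
  refine ⟨K1 + K2 + 1, by linarith, fun n hn => ?_⟩
  have hn1 : 1 ≤ |(n : ℝ)| := by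
    have : 1 ≤ |n| := Int.one_le_abs hn
    exact_mod_cast this
  have hn0 : 0 < |(n : ℝ)| := by linarith
  have hlog : 0 ≤ Real.log |(n : ℝ)| := Real.log_nonneg hn1
  have hT := Pool.Agent.Y151.WD.t_TAIL
  obtain ⟨hr0, -, -, -⟩ := hT.2 n
  have hb := bt_pos n hT
  have hD := D_pos n
  have hh := half_int (m := n)
  have e : Real.log (Real.pi ^ 2 / 8 * 3 ^ V n * |(n : ℝ)| * D n) =
      g n + Real.log (D n / rho n) + Real.log (|(n : ℝ)| / |(n : ℝ) + 1 / 2|) := by
    have e1 : Real.pi ^ 2 / 8 * (3 : ℝ) ^ V n * |(n : ℝ)| * D n =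
        (bt n * rho n) * (1 / 2) * 3 ^ V n * (D n / rho n) * (|(n : ℝ)| / |(n : ℝ) + 1 / 2|) := by
      unfold bt
      obtain ⟨x, hx⟩ : ∃ x, x = |(n : ℝ) + 1 / 2| := ⟨_, rfl⟩
      rw [← hx] at hh ⊢
      field_simp
      ring
    have h3 : (0 : ℝ) < 3 ^ V n := Real.rpow_pos_of_pos (by norm_num) _
    rw [e1, Real.log_mul (by positivity) (by positivity), Real.log_mul (by positivity)
      (by positivity), Real.log_mul (by positivity) (by positivity), Real.log_mul (by positivity)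
      (by positivity), Real.log_rpow (by norm_num)]
    unfold g
    rw [one_div, Real.log_inv]
    ring
  rw [e]
  have h3 := hK1 n hn
  have h4 := hK2 n hn
  have h5 : |Real.log (|(n : ℝ)| / |(n : ℝ) + 1 / 2|)| ≤ 1 / |(n : ℝ)| := by
    have h6 : |(n : ℝ)| - 1 / 2 ≤ |(n : ℝ) + 1 / 2| := by
      have := abs_sub_abs_le_abs_sub ((n : ℝ)) (-(1 / 2))
      rw [sub_neg_eq_add, abs_neg, abs_of_pos (by norm_num : (0 : ℝ) < 1 / 2)] at this
      linarith
    refine (abs_log_div (c := |(n : ℝ)| / 2) (by positivity) (by linarith) (by linarith)).trans ?_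
    have h7 : |(|(n : ℝ)| - |(n : ℝ) + 1 / 2|)| ≤ 1 / 2 := by
      refine (abs_abs_sub_abs_le_abs_sub _ _).trans ?_
      rw [show (n : ℝ) - (n + 1 / 2) = -(1 / 2) by ring, abs_neg, abs_of_pos (by norm_num)]
    rw [div_le_div_iff₀ (by positivity) hn0]
    nlinarith
  have h8 : K1 / |(n : ℝ)| ≤ K1 * (1 + Real.log |(n : ℝ)|) / |(n : ℝ)| := by
    apply div_le_div_of_nonneg_right _ hn0.le
    nlinarith
  have h9 : 1 / |(n : ℝ)| ≤ 1 * (1 + Real.log |(n : ℝ)|) / |(n : ℝ)| := by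
    apply div_le_div_of_nonneg_right _ hn0.le
    linarith
  have h10 := abs_add_le (g n + Real.log (D n / rho n)) (Real.log (|(n : ℝ)| / |(n : ℝ) + 1 / 2|))
  have h11 := abs_add_le (g n) (Real.log (D n / rho n))
  have e2 : (K1 + K2 + 1) * (1 + Real.log |(n : ℝ)|) / |(n : ℝ)| =
      K1 * (1 + Real.log |(n : ℝ)|) / |(n : ℝ)| + K2 * (1 + Real.log |(n : ℝ)|) / |(n : ℝ)| +
      1 * (1 + Real.log |(n : ℝ)|) / |(n : ℝ)| := by ring
  rw [e2]
  linarith

/-- from logarithms to relative errors -/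
theorem rel_of_log {x K L y : ℝ} (hx : 0 < x) (hK : 0 ≤ K) (h : |Real.log x| ≤ K * y) (hy : y ≤ L) :
    |x - 1| ≤ K * Real.exp (K * L) * y := by
  have h1 := abs_exp_sub_one (Real.log x)
  rw [Real.exp_log hx] at h1
  have h2 : Real.exp |Real.log x| ≤ Real.exp (K * L) := by
    rw [Real.exp_le_exp]
    exact h.trans (by gcongr)
  calc |x - 1| ≤ |Real.log x| * Real.exp |Real.log x| := h1
    _ ≤ (K * y) * Real.exp (K * L) := by gcongr; exact (abs_nonneg _).trans h
    _ = K * Real.exp (K * L) * y := by ring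

end Pool.Agent.R105.WR
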