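import Mathlib
import Pool.Agent.R105.WR.Val

/-!
Binary digits of the parity sequence and residue classes.
-/

set_option autoImplicit false

open Filter Topology Metric Set

namespace Pool.Agent.R105.WR

open Pool.Agent.H384R2.Fatou Pool.Agent.H723R2.LSW Pool.Agent.Y282.WD

/-- the first `j` parities as a natural number -/
def P : ℕ → ℤ → ℕ
  | 0, _ => 0
  | j + 1, n => (if n % 2 = 0 then 0 else 2 ^ j) + P j (T n)

theorem P_lt (j : ℕ) : ∀ n : ℤ, P j n < 2 ^ j := by
  induction j with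
  | zero => intro n; simp [P]
  | succ j ih =>
    intro n
    have := ih (T n)
    rw [P, pow_succ]
    split_ifs <;> omega

theorem P_V (j : ℕ) : ∀ n : ℤ, (P j n : ℝ) / 2 ^ j ≤ V n ∧ V n ≤ ((P j n : ℝ) + 1) / 2 ^ j := by
  induction j with
  | zero =>
    intro n
    have h1 := V_nonneg n
    have h2 := V_le_one n
    simp [P, h1, h2]
  | succ j ih =>
    intro n
    obtain ⟨h1, h2⟩ := ih (T n)
    rw [V_step n, P]
    have e : (((if n % 2 = 0 then 0 else 2 ^ j : ℕ) : ℝ)) = par n * 2 ^ j := by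
      unfold par
      split_ifs <;> simp
    push_cast [e]
    rw [div_le_iff₀ (by positivity)] at h1 ⊢
    rw [le_div_iff₀ (by positivity)] at h2 ⊢
    rw [pow_succ]
    have e2 : ((if n % 2 = 0 then (0 : ℝ) else 2 ^ j)) = par n * 2 ^ j := by
      unfold par
      split_ifs <;> simp
    constructor
    · nlinarith
    · nlinarith

theorem P_eq (j : ℕ) : ∀ a b : ℤ, P j a = P j b ↔ a ≡ b [ZMOD 2 ^ j] := by
  induction j with
  | zero =>
    intro a b
    simp only [P, pow_zero, true_iff]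
    exact Int.modEq_one
  | succ j ih =>
    intro a b
    have h1 := P_lt j (T a)
    have h2 := P_lt j (T b)
    have key : P (j + 1) a = P (j + 1) b ↔ ((a % 2 = 0 ↔ b % 2 = 0) ∧ T a ≡ T b [ZMOD 2 ^ j]) := by
      rw [← ih (T a) (T b)]
      simp only [P]
      split_ifs with ha hb hb <;> simp only [ha, hb, true_iff, false_iff, iff_true, iff_false,
        not_true, not_false_iff, true_and, false_and] <;> omega
    rw [key]
    have hp : (2 : ℤ) ^ (j + 1) = 2 * 2 ^ j := by rw [pow_succ]; ring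
    constructor
    · rintro ⟨hpar, hT⟩
      rw [Int.modEq_iff_dvd] at hT ⊢
      obtain ⟨w, hw⟩ := hT
      rw [hp]
      by_cases ha : a % 2 = 0
      · have hb := hpar.1 ha
        refine ⟨w, ?_⟩
        have e1 : a = 2 * T a := by unfold T; rw [if_pos ha]; omega
        have e2 : b = 2 * T b := by unfold T; rw [if_pos hb]; omega
        rw [e1, e2]
        linear_combination 2 * hw
      · have hb : ¬ b % 2 = 0 := fun h => ha (hpar.2 h)
        have e1 : 3 * a + 1 = 2 * T a := by unfold T; rw [if_neg ha]; omega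
        have e2 : 3 * b + 1 = 2 * T b := by unfold T; rw [if_neg hb]; omega
        have h3 : (2 * 2 ^ j : ℤ) ∣ 3 * (b - a) := ⟨w, by linear_combination e2 - e1 + 2 * hw⟩
        have hcop : IsCoprime (2 * 2 ^ j : ℤ) 3 := by
          rw [← hp]
          exact IsCoprime.pow_left (by norm_num)
        exact hcop.dvd_of_dvd_mul_left h3
    · intro h
      rw [Int.modEq_iff_dvd, hp] at h
      obtain ⟨w, hw⟩ := h
      have h2 : b - a = 2 * (2 ^ j * w) := by rw [hw]; ring
      have hpar : a % 2 = 0 ↔ b % 2 = 0 := by omega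
      refine ⟨hpar, ?_⟩
      rw [Int.modEq_iff_dvd]
      by_cases ha : a % 2 = 0
      · have hb := hpar.1 ha
        have e1 : a = 2 * T a := by unfold T; rw [if_pos ha]; omega
        have e2 : b = 2 * T b := by unfold T; rw [if_pos hb]; omega
        refine ⟨w, ?_⟩
        have : 2 * (T b - T a) = 2 * (2 ^ j * w) := by rw [← h2]; linear_combination e1 - e2
        exact mul_left_cancel₀ two_ne_zero this
      · have hb : ¬ b % 2 = 0 := fun h => ha (hpar.2 h)
        have e1 : 3 * a + 1 = 2 * T a := by unfold T; rw [if_neg ha]; omega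
        have e2 : 3 * b + 1 = 2 * T b := by unfold T; rw [if_neg hb]; omega
        refine ⟨3 * w, ?_⟩
        have : 2 * (T b - T a) = 2 * (2 ^ j * (3 * w)) := by
          linear_combination e1 - e2 + 3 * h2
        exact mul_left_cancel₀ two_ne_zero this

theorem P_surj (j b : ℕ) (hb : b < 2 ^ j) : ∃ a : ℤ, P j a = b := by
  have hinj : Function.Injective (fun i : Fin (2 ^ j) => (⟨P j (i : ℤ), P_lt j _⟩ : Fin (2 ^ j))) := by
    intro x y hxy
    have h1 : P j ((x : ℕ) : ℤ) = P j ((y : ℕ) : ℤ) := by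
      have := congrArg Fin.val hxy
      simpa using this
    rw [P_eq] at h1
    have h2 : ((x : ℕ) : ℤ) ≡ ((y : ℕ) : ℤ) [ZMOD ((2 ^ j : ℕ) : ℤ)] := by
      push_cast; exact h1
    rw [Int.natCast_modEq_iff] at h2
    exact Fin.ext (Nat.ModEq.eq_of_lt_of_lt h2 x.2 y.2)
  obtain ⟨i, hi⟩ := (Finite.injective_iff_surjective.1 hinj) ⟨b, hb⟩
  exact ⟨(i : ℕ), by simpa using congrArg Fin.val hi⟩

/-- squeezing densities -/
theorem squeeze {c : ℕ → ℝ} {L : ℝ}
    (h : ∀ ε : ℝ, 0 < ε → ∃ (a b : ℕ → ℝ) (α β C : ℝ), Tendsto (fun N : ℕ => a N / N) atTop (𝓝 α) ∧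
      Tendsto (fun N : ℕ => b N / N) atTop (𝓝 β) ∧ L - ε ≤ α ∧ β ≤ L + ε ∧
      ∀ N : ℕ, a N - C ≤ c N ∧ c N ≤ b N + C) :
    Tendsto (fun N : ℕ => c N / N) atTop (𝓝 L) := by
  rw [Metric.tendsto_atTop']
  intro ε hε
  obtain ⟨a, b, α, β, C, ha, hb, hα, hβ, hc⟩ := h (ε / 4) (by linarith)
  have h1 : Tendsto (fun N : ℕ => C / (N : ℝ)) atTop (𝓝 0) := tendsto_const_div_atTop_nhds_zero_nat C
  have h2 : ∀ᶠ N : ℕ in atTop, α - ε / 4 < a N / N := ha.eventually (lt_mem_nhds (by linarith))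
  have h3 : ∀ᶠ N : ℕ in atTop, b N / N < β + ε / 4 := hb.eventually (gt_mem_nhds (by linarith))
  have h4 : ∀ᶠ N : ℕ in atTop, C / (N : ℝ) < ε / 4 := h1.eventually (gt_mem_nhds (by linarith))
  obtain ⟨N0, hN0⟩ := eventually_atTop.1 (h2.and (h3.and (h4.and (eventually_gt_atTop 0))))
  refine ⟨N0, fun N hN => ?_⟩
  obtain ⟨h5, h6, h7, h8⟩ := hN0 N hN.le
  have hN' : (0 : ℝ) < N := by exact_mod_cast h8
  obtain ⟨h9, h10⟩ := hc N
  have h11 : a N / N - C / N ≤ c N / N := by
    rw [← sub_div]; gcongr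
  have h12 : c N / N ≤ b N / N + C / N := by
    rw [← add_div]; gcongr
  rw [Real.dist_eq, abs_lt]
  constructor <;> linarith

end Pool.Agent.R105.WR
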