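import Mathlib
import Pool.Agent.R105.WR.Dig
import Pool.Agent.Results.MP_7f88e4_nt.ResidueClasses

/-!
The law of the distances to the Julia set in completely invariant sets of integers.
-/

set_option autoImplicit false

open Filter Topology Metric Set

namespace Pool.Agent.R105.WR

open Pool.Agent.H384R2.Fatou Pool.Agent.H723R2.LSW Pool.Agent.Y282.WD

open Classical in
/-- the elements of `S` of sign `s` up to `N` -/
noncomputable def W (s : ℤ) (S : Set ℤ) (N : ℕ) : Finset ℤ :=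
  (Finset.Icc (-(N : ℤ)) N).filter (fun n => 0 < s * n ∧ s * n ≤ N ∧ n ∈ S)

theorem mem_W {s : ℤ} (hs : s = 1 ∨ s = -1) {S : Set ℤ} {N : ℕ} {n : ℤ} :
    n ∈ W s S N ↔ 0 < s * n ∧ s * n ≤ N ∧ n ∈ S := by
  classical
  unfold W
  rw [Finset.mem_filter, Finset.mem_Icc]
  constructor
  · exact fun h => h.2
  · intro h
    refine ⟨?_, h⟩
    rcases hs with rfl | rfl <;> omega

theorem W_ncard {s : ℤ} (hs : s = 1 ∨ s = -1) (S : Set ℤ) (N : ℕ) :
    {n : ℤ | 0 < s * n ∧ s * n ≤ N ∧ n ∈ S}.ncard = (W s S N).card := by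
  rw [← Set.ncard_coe_finset]
  congr 1
  ext n
  rw [Finset.mem_coe, mem_W hs]
  rfl

/-- density -/
def HD (s : ℤ) (S : Set ℤ) (δ : ℝ) : Prop :=
  Tendsto (fun N : ℕ => ((W s S N).card : ℝ) / N) atTop (𝓝 δ)

open Classical in
/-- additivity over the values of a function with finitely many values -/
theorem HD_sum {s : ℤ} (hs : s = 1 ∨ s = -1) {S : Set ℤ} (f : ℤ → ℕ) (t : Finset ℕ)
    (hf : ∀ n ∈ S, f n ∈ t) {δ : ℝ} (h : ∀ b ∈ t, HD s {n | n ∈ S ∧ f n = b} δ) :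
    HD s S (t.card * δ) := by
  have e : ∀ N : ℕ, ((W s S N).card : ℝ) / N =
      ∑ b ∈ t, ((W s {n | n ∈ S ∧ f n = b} N).card : ℝ) / N := by
    intro N
    rw [← Finset.sum_div]
    congr 1
    rw [Finset.card_eq_sum_card_fiberwise (f := f) (t := t) (fun n hn => hf n ((mem_W hs).1 hn).2.2)]
    push_cast
    apply Finset.sum_congr rfl
    intro b _
    congr 2
    ext n
    rw [Finset.mem_filter, mem_W hs, mem_W hs]
    constructor
    · rintro ⟨⟨h1, h2, h3⟩, h4⟩; exact ⟨h1, h2, h3, h4⟩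
    · rintro ⟨h1, h2, h3, h4⟩; exact ⟨⟨h1, h2, h3⟩, h4⟩
  unfold HD
  simp_rw [e]
  have h1 := tendsto_finsetSum t (fun b hb => h b hb)
  simpa [nsmul_eq_mul] using h1

theorem HD_nonneg {s : ℤ} {S : Set ℤ} {δ : ℝ} (h : HD s S δ) : 0 ≤ δ :=
  ge_of_tendsto' h fun N => by positivity

/-- densities of the residue classes of completely invariant sets -/
theorem dens {A : Set ℤ} (hA : ∀ x, x ∈ A ↔ T x ∈ A) {s : ℤ} (hs : s = 1 ∨ s = -1) :
    ∃ δ : ℝ, (δ = 0 ↔ ∀ n : ℤ, 0 < s * n → n ∉ A) ∧ HD s A δ ∧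
      ∀ Q : ℕ, 1 ≤ Q → ∀ a : ℤ, HD s {n | n ∈ A ∧ n ≡ a [ZMOD Q]} (δ / Q) := by
  have hD : Pool.Agent.Results.MP_7f88e4_nt.ResidueClasses.Distributed 1 s A :=
    Pool.Agent.Results.MP_7f88e4_nt.ResidueClasses.main (k := 1) (Or.inl (by norm_num)) hA hs
  have key : ∀ Q : ℕ, 1 ≤ Q → ∃ d : ℝ, (∀ a : ℤ, HD s {n | n ∈ A ∧ n ≡ a [ZMOD Q]} d) ∧
      (∀ x ∈ A, 0 < s * x → ¬ (3 : ℤ) ∣ x → 0 < d) := by
    intro Q hQ
    obtain ⟨δ, h1, h2, h3⟩ := hD Q hQ
    have hrel : ∀ a b : ℤ, Pool.Agent.Results.MP_7f88e4_nt.ResidueClasses.Rel (Int.gcd Q 1) a b := by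
      intro a b
      refine ⟨0, 0, ?_⟩
      simp only [Int.gcd_one, Nat.cast_one]
      exact Int.modEq_one
    refine ⟨δ 0, fun a => ?_, fun x hx hsx hx3 => h3 0 x hx hsx hx3 (hrel _ _)⟩
    have h4 := h1 a
    rw [h2 a 0 (hrel _ _)] at h4
    refine h4.congr fun N => ?_
    congr 2
    have h5 := W_ncard hs {n | n ∈ A ∧ n ≡ a [ZMOD Q]} N
    rw [← h5]
    rfl
  choose! d hd1 hd2 using key
  have hall : ∀ Q : ℕ, 1 ≤ Q → HD s A (Q * d Q) := by
    intro Q hQ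
    have hQ' : (0 : ℤ) < Q := by exact_mod_cast hQ
    have h1 := HD_sum hs (S := A) (fun n => (n % (Q : ℤ)).toNat) (Finset.range Q) (fun n _ => by
      rw [Finset.mem_range]
      have h2 := Int.emod_nonneg n hQ'.ne'
      have h3 := Int.emod_lt_of_pos n hQ'
      omega) (δ := d Q) (fun b hb => by
      rw [Finset.mem_range] at hb
      have h4 := hd1 Q hQ (b : ℤ)
      have e : {n | n ∈ A ∧ n ≡ (b : ℤ) [ZMOD Q]} = {n | n ∈ A ∧ (n % (Q : ℤ)).toNat = b} := by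
        ext n
        have h2 := Int.emod_nonneg n hQ'.ne'
        have h3 := Int.emod_lt_of_pos n hQ'
        have h5 : (b : ℤ) % Q = b := Int.emod_eq_of_lt (by omega) (by exact_mod_cast hb)
        constructor
        · rintro ⟨h6, h7⟩
          refine ⟨h6, ?_⟩
          unfold Int.ModEq at h7
          rw [h5] at h7
          show (n % (Q : ℤ)).toNat = b
          omega
        · rintro ⟨h6, h7⟩
          refine ⟨h6, ?_⟩
          unfold Int.ModEq
          rw [h5]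
          change (n % (Q : ℤ)).toNat = b at h7
          omega
      rw [← e]; exact h4)
    rwa [Finset.card_range] at h1
  refine ⟨d 1, ?_, by simpa using hall 1 le_rfl, fun Q hQ a => ?_⟩
  · constructor
    · intro h0 n hn hnA
      -- an element prime to 3
      have hex : ∀ k : ℕ, ∀ x : ℤ, x.natAbs ≤ k → x ∈ A → 0 < s * x →
          ∃ y ∈ A, 0 < s * y ∧ ¬ (3 : ℤ) ∣ y := by
        intro k
        induction k with
        | zero =>
          intro x hx _ hsx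
          have : x = 0 := by omega
          subst this; simp at hsx
        | succ k ih =>
          intro x hx hxA hsx
          by_cases hp : x % 2 = 0
          · have e1 : x = 2 * T x := by unfold T; rw [if_pos hp]; omega
            refine ih (T x) ?_ ((hA x).1 hxA) ?_
            · have : x ≠ 0 := by rintro rfl; simp at hsx
              omega
            · rw [e1] at hsx
              nlinarith
          · have e1 : 3 * x + 1 = 2 * T x := by unfold T; rw [if_neg hp]; omega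
            refine ⟨T x, (hA x).1 hxA, ?_, ?_⟩
            · rcases hs with rfl | rfl <;> omega
            · omega
      obtain ⟨y, hyA, hsy, hy3⟩ := hex _ n le_rfl hnA hn
      exact absurd h0 (hd2 1 le_rfl y hyA hsy hy3).ne'
    · intro h
      have h1 := hd1 1 le_rfl 0
      have h2 : (fun N : ℕ => ((W s {n | n ∈ A ∧ n ≡ 0 [ZMOD (1 : ℕ)]} N).card : ℝ) / N) =
          fun _ => 0 := by
        funext N
        have : W s {n | n ∈ A ∧ n ≡ 0 [ZMOD (1 : ℕ)]} N = ∅ := by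
          rw [Finset.eq_empty_iff_forall_notMem]
          intro n hn
          obtain ⟨h3, h4, h5, h6⟩ := (mem_W hs).1 hn
          exact h n h3 h5
        rw [this]; simp
      unfold HD at h1
      rw [h2] at h1
      exact tendsto_nhds_unique h1 tendsto_const_nhds
  · have h1 := tendsto_nhds_unique (hall Q hQ) (hall 1 le_rfl)
    have hQ' : (0 : ℝ) < Q := by exact_mod_cast hQ
    have h2 : d 1 / Q = d Q := by
      rw [div_eq_iff hQ'.ne']
      rw [Nat.cast_one, one_mul] at h1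
      linarith
    rw [h2]
    exact hd1 Q hQ a

/-- the density of the sets where the first digits are at least `i` -/
theorem dens_digits {A : Set ℤ} {s : ℤ} (hs : s = 1 ∨ s = -1) {δ : ℝ}
    (h : ∀ Q : ℕ, 1 ≤ Q → ∀ a : ℤ, HD s {n | n ∈ A ∧ n ≡ a [ZMOD Q]} (δ / Q))
    {M : ℕ} (hM : Odd M) (a : ℤ) (j i : ℕ) (hi : i ≤ 2 ^ j) :
    HD s {n | (n ∈ A ∧ n ≡ a [ZMOD M]) ∧ i ≤ P j n} (((2 : ℝ) ^ j - i) * (δ / (2 ^ j * M))) := by
  have hM1 : 1 ≤ M := hM.pos
  have h1 := HD_sum hs (S := {n | (n ∈ A ∧ n ≡ a [ZMOD M]) ∧ i ≤ P j n}) (P j)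
    (Finset.Ico i (2 ^ j)) (fun n hn => by
      rw [Finset.mem_Ico]
      exact ⟨hn.2, P_lt j n⟩) (δ := δ / ((2 ^ j * M : ℕ) : ℝ)) (fun b hb => by
      rw [Finset.mem_Ico] at hb
      obtain ⟨x, hx⟩ := P_surj j b hb.2
      have hcop : IsCoprime ((2 : ℤ) ^ j) (M : ℤ) := by
        apply IsCoprime.pow_left
        have : Nat.Coprime 2 M := (Nat.coprime_two_left).2 hM
        exact_mod_cast Nat.isCoprime_iff_coprime.2 this
      obtain ⟨u, v, huv⟩ := id hcop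
      set c : ℤ := x * (v * M) + a * (u * 2 ^ j) with hc
      have hc1 : c ≡ x [ZMOD 2 ^ j] := by
        rw [Int.modEq_iff_dvd]
        refine ⟨x * u - a * u, ?_⟩
        rw [hc]
        linear_combination (-x) * huv
      have hc2 : c ≡ a [ZMOD M] := by
        rw [Int.modEq_iff_dvd]
        refine ⟨a * v - x * v, ?_⟩
        rw [hc]
        linear_combination (-a) * huv
      have h2 := h (2 ^ j * M) (Nat.mul_pos (by positivity) hM1) c
      have e : {n | n ∈ A ∧ n ≡ c [ZMOD ((2 ^ j * M : ℕ) : ℤ)]} =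
          {n | n ∈ {n | (n ∈ A ∧ n ≡ a [ZMOD M]) ∧ i ≤ P j n} ∧ P j n = b} := by
        have hco : ((2 : ℤ) ^ j).natAbs.Coprime (M : ℤ).natAbs := Int.isCoprime_iff_gcd_eq_one.1 hcop
        ext n
        simp only [Set.mem_ofPred_eq]
        push_cast
        rw [← Int.modEq_and_modEq_iff_modEq_mul hco, ← hx, P_eq]
        constructor
        · rintro ⟨h3, h4, h5⟩
          have h6 : n ≡ x [ZMOD 2 ^ j] := h4.trans hc1
          refine ⟨⟨⟨h3, h5.trans hc2⟩, ?_⟩, h6⟩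
          rw [(P_eq j n x).2 h6, hx]; exact hb.1
        · rintro ⟨⟨⟨h3, h4⟩, -⟩, h5⟩
          exact ⟨h3, h5.trans hc1.symm, h4.trans hc2.symm⟩
      rw [← e]; exact h2)
  rw [Nat.card_Ico, Nat.cast_sub hi] at h1
  push_cast at h1
  exact h1

/-- the condition on the distance in terms of the first digits -/
theorem cond (j : ℕ) : ∃ N0 : ℕ, ∀ n : ℤ, (N0 : ℤ) < |n| → ∀ u : ℝ,
    (|(n : ℝ)| * D n ≤ 8 / Real.pi ^ 2 * 3 ^ (-u) → 2 ^ j * u - 2 ≤ (P j n : ℝ)) ∧
    (2 ^ j * u + 1 ≤ (P j n : ℝ) → |(n : ℝ)| * D n ≤ 8 / Real.pi ^ 2 * 3 ^ (-u)) := by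
  obtain ⟨K, hK0, hK⟩ := main_log
  have h3 : 0 < Real.log 3 := Real.log_pos (by norm_num)
  have hlim : Tendsto (fun x : ℝ => K * (1 + Real.log x) / x) atTop (𝓝 0) := by
    have h1 : Tendsto (fun x : ℝ => Real.log x / x) atTop (𝓝 0) := by
      have := Real.isLittleO_log_id_atTop.tendsto_div_nhds_zero
      simpa using this
    have h2 : Tendsto (fun x : ℝ => K * (x⁻¹ + Real.log x / x)) atTop (𝓝 (K * (0 + 0))) :=
      (tendsto_inv_atTop_zero.add h1).const_mul K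
    rw [add_zero, mul_zero] at h2
    refine h2.congr fun x => ?_
    ring
  have hev := hlim.eventually (gt_mem_nhds (show (0 : ℝ) < Real.log 3 / 2 ^ j by positivity))
  obtain ⟨x0, hx0⟩ := eventually_atTop.1 hev
  refine ⟨⌈|x0|⌉₊, fun n hn u => ?_⟩
  have hn' : ((⌈|x0|⌉₊ : ℕ) : ℝ) < |(n : ℝ)| := by exact_mod_cast hn
  have h5 := Nat.le_ceil |x0|
  have h6 := le_abs_self x0
  have hn0 : 0 < |(n : ℝ)| := lt_of_le_of_lt (by positivity) hn'
  have hnz : n ≠ 0 := by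
    rintro rfl; simp at hn0
  have h7 := hx0 |(n : ℝ)| (by linarith)
  have h8 := (hK n hnz).trans h7.le
  rw [abs_le] at h8
  obtain ⟨hv1, hv2⟩ := P_V j n
  have hD := D_pos n
  have h3V : (0 : ℝ) < 3 ^ V n := Real.rpow_pos_of_pos (by norm_num) _
  have hpi : (0 : ℝ) < Real.pi ^ 2 := by positivity
  have hiff : |(n : ℝ)| * D n ≤ 8 / Real.pi ^ 2 * 3 ^ (-u) ↔
      Real.log (Real.pi ^ 2 / 8 * 3 ^ V n * |(n : ℝ)| * D n) ≤ (V n - u) * Real.log 3 := by
    rw [← Real.log_rpow (by norm_num : (0 : ℝ) < 3), Real.log_le_log_iff (by positivity)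
      (Real.rpow_pos_of_pos (by norm_num) _), sub_eq_add_neg, Real.rpow_add (by norm_num)]
    have e1 : Real.pi ^ 2 / 8 * 3 ^ V n * |(n : ℝ)| * D n =
        3 ^ V n * (Real.pi ^ 2 / 8 * (|(n : ℝ)| * D n)) := by ring
    rw [e1, mul_le_mul_iff_right₀ h3V]
    have e2 : (8 : ℝ) / Real.pi ^ 2 * 3 ^ (-u) = (Real.pi ^ 2 / 8)⁻¹ * 3 ^ (-u) := by
      rw [inv_div]
    rw [e2, ← div_eq_inv_mul, le_div_iff₀ (by positivity), mul_comm (Real.pi ^ 2 / 8)]
  rw [hiff]
  have h2j : (0 : ℝ) < 2 ^ j := by positivity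
  constructor
  · intro h
    have h9 : -(Real.log 3 / 2 ^ j) ≤ (V n - u) * Real.log 3 := h8.1.trans h
    have h10 : -(1 / 2 ^ j) ≤ V n - u := by
      have : -(1 / 2 ^ j) * Real.log 3 ≤ (V n - u) * Real.log 3 := by
        refine le_trans (le_of_eq ?_) h9
        ring
      exact le_of_mul_le_mul_right this h3
    have h11 : u - 1 / 2 ^ j ≤ ((P j n : ℝ) + 1) / 2 ^ j := by linarith
    rw [le_div_iff₀ h2j, sub_mul, one_div, inv_mul_cancel₀ h2j.ne'] at h11
    linarith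
  · intro h
    refine h8.2.trans ?_
    have h10 : 1 / 2 ^ j ≤ V n - u := by
      have h12 : u + 1 / 2 ^ j ≤ (P j n : ℝ) / 2 ^ j := by
        rw [le_div_iff₀ h2j, add_mul, one_div, inv_mul_cancel₀ h2j.ne']
        linarith
      linarith
    calc Real.log 3 / 2 ^ j = 1 / 2 ^ j * Real.log 3 := by ring
      _ ≤ (V n - u) * Real.log 3 := by gcongr

open Classical in
theorem law {A : Set ℤ} {s : ℤ} (hs : s = 1 ∨ s = -1) {δ : ℝ}
    (h : ∀ Q : ℕ, 1 ≤ Q → ∀ a : ℤ, HD s {n | n ∈ A ∧ n ≡ a [ZMOD Q]} (δ / Q))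
    {M : ℕ} (hM : Odd M) (a : ℤ) {u : ℝ} (hu0 : 0 ≤ u) (hu1 : u ≤ 1) :
    HD s {n | (n ∈ A ∧ n ≡ a [ZMOD M]) ∧ |(n : ℝ)| * D n ≤ 8 / Real.pi ^ 2 * 3 ^ (-u)}
      (δ / M * (1 - u)) := by
  have hM1 : (1 : ℝ) ≤ M := by exact_mod_cast hM.pos
  have hδ : 0 ≤ δ := by
    have := HD_nonneg (h 1 le_rfl 0)
    simpa using this
  apply squeeze
  intro ε hε
  obtain ⟨j, hj⟩ := pow_unbounded_of_one_lt (2 * δ / ε) (by norm_num : (1 : ℝ) < 2)
  rw [div_lt_iff₀ hε] at hj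
  have h2j : (0 : ℝ) < 2 ^ j := by positivity
  obtain ⟨N0, hN0⟩ := cond j
  -- the thresholds
  set i1 := ⌈2 ^ j * u - 2⌉₊ with hi1
  set i2 := min (2 ^ j) ⌈2 ^ j * u + 1⌉₊ with hi2
  have hi1le : i1 ≤ 2 ^ j := by
    rw [hi1, Nat.ceil_le]
    push_cast
    nlinarith
  have hi2le : i2 ≤ 2 ^ j := min_le_left _ _
  have hi1r : 2 ^ j * u - 2 ≤ (i1 : ℝ) := Nat.le_ceil _
  have hi2r : (i2 : ℝ) ≤ 2 ^ j * u + 2 := by
    have h0 : i2 ≤ ⌈2 ^ j * u + 1⌉₊ := min_le_right _ _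
    have h1 : (i2 : ℝ) ≤ (⌈2 ^ j * u + 1⌉₊ : ℝ) := by exact_mod_cast h0
    have h2 := Nat.ceil_lt_add_one (show 0 ≤ 2 ^ j * u + 1 by positivity)
    linarith
  have hD1 := dens_digits hs h hM a j i1 hi1le
  have hD2 := dens_digits hs h hM a j i2 hi2le
  have hb : 2 * (δ / (2 ^ j * M)) ≤ ε := by
    rw [← mul_div_assoc, div_le_iff₀ (by positivity)]
    nlinarith
  have hq : 0 ≤ δ / (2 ^ j * M) := by positivity
  have hL : δ / M * (1 - u) = (2 ^ j - 2 ^ j * u) * (δ / (2 ^ j * M)) := by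
    field_simp
  set C : ℕ := (Finset.Icc (-(N0 : ℤ)) N0).card with hC
  refine ⟨_, _, _, _, C, hD2, hD1, ?_, ?_, fun N => ⟨?_, ?_⟩⟩
  · rw [hL]
    nlinarith
  · rw [hL]
    nlinarith
  · rw [sub_le_iff_le_add]
    have hsub : W s {n | (n ∈ A ∧ n ≡ a [ZMOD M]) ∧ i2 ≤ P j n} N ⊆
        W s {n | (n ∈ A ∧ n ≡ a [ZMOD M]) ∧ |(n : ℝ)| * D n ≤ 8 / Real.pi ^ 2 * 3 ^ (-u)} N ∪
          Finset.Icc (-(N0 : ℤ)) N0 := by
      intro n hn
      obtain ⟨h1, h2, h3, h4⟩ := (mem_W hs).1 hn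
      rw [Finset.mem_union]
      by_cases hbig : (N0 : ℤ) < |n|
      · left
        refine (mem_W hs).2 ⟨h1, h2, h3, ?_⟩
        refine (hN0 n hbig u).2 ?_
        have h5 := P_lt j n
        have h6 : ⌈2 ^ j * u + 1⌉₊ ≤ P j n := by
          rcases le_total (2 ^ j) ⌈2 ^ j * u + 1⌉₊ with h7 | h7
          · rw [hi2, min_eq_left h7] at h4; omega
          · rw [hi2, min_eq_right h7] at h4; exact h4
        exact (Nat.le_ceil _).trans (by exact_mod_cast h6)
      · right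
        push Not at hbig
        rw [abs_le] at hbig
        exact Finset.mem_Icc.2 hbig
    have := (Finset.card_le_card hsub).trans (Finset.card_union_le _ _)
    exact_mod_cast this
  · have hsub : W s {n | (n ∈ A ∧ n ≡ a [ZMOD M]) ∧
        |(n : ℝ)| * D n ≤ 8 / Real.pi ^ 2 * 3 ^ (-u)} N ⊆
        W s {n | (n ∈ A ∧ n ≡ a [ZMOD M]) ∧ i1 ≤ P j n} N ∪ Finset.Icc (-(N0 : ℤ)) N0 := by
      intro n hn
      obtain ⟨h1, h2, h3, h4⟩ := (mem_W hs).1 hn
      rw [Finset.mem_union]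
      by_cases hbig : (N0 : ℤ) < |n|
      · left
        refine (mem_W hs).2 ⟨h1, h2, h3, ?_⟩
        have h5 := (hN0 n hbig u).1 h4
        rw [hi1, Nat.ceil_le]
        exact h5
      · right
        push Not at hbig
        rw [abs_le] at hbig
        exact Finset.mem_Icc.2 hbig
    have := (Finset.card_le_card hsub).trans (Finset.card_union_le _ _)
    exact_mod_cast this

end Pool.Agent.R105.WR
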